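import Pool.Agent.L5helper4.DL.Primes

/-!
# Many small dilates of both shapes of prime triples have the expected order of magnitude

For `h ≥ 1` the patterns `(p, p + 2 h, p + 6 h)` and `(p, p + 4 h, p + 6 h)` are the dilates by `h` of the two
patterns of the problem. The heuristics of Hardy and Littlewood predict `D_h n / (log n) ^ 3` prime triples of
each shape, `D_h ≥ D > 0`.

Theorem. There are `B` and `c > 0` such that for all large `n` and EVERY `K` between `(log n) ^ B` and
`n / (log n) ^ B`, for at least `c K` of the `h ≤ K` there are at least `c n / (log n) ^ 3` primes `p ≤ n` with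
`p + 2 h` and `p + 6 h` prime and also at least `c n / (log n) ^ 3` primes `p ≤ n` with `p + 4 h` and `p + 6 h`
prime. More generally, for every `k` and every set `P` of primes of positive relative density, a positive
proportion of the `d ≤ D`, `D` in the same range, is such that ALL the patterns contained in the progression
`0, d, …, (k - 1) d` occur in `P` with the right order of magnitude `n / (log n) ^ m`, `m` the number of points.

Method. In windows of length `D` the primes are compared with a sieve majorant (`Pool.Agent.Y843.HS`,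
helper843 and others), to which the relative Szemerédi theorem of Conlon, Fox and Zhao (`Pool.Agent.Y727.PSP`,
helper727 and others) applies in most windows. New here: a progression of `k` terms may be replaced by any part
of it even if the difference is restricted to an arbitrary set (strong linear forms condition for the system
`a, a + d, …, a + (k - 1) d, d`), and the second moment over the differences is bounded; so the differences for
which some part of the progression is rare carry few progressions.
-/

set_option autoImplicit false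

namespace Pool.Agent.Results.MP_c0d11e_nt.DilatesOfBothShapes

open Finset Filter

/-- `P_n(p, p + a, p + b)`: the number of the primes `p ≤ n` such that `p + a` and `p + b` are prime -/
def triples (a b n : ℕ) : ℕ :=
  ((Icc 1 n).filter (fun p => p.Prime ∧ (p + a).Prime ∧ (p + b).Prime)).card

open Classical in
/-- the number of the elements `p` of `P` such that `p + j d` is in `P` for all `j ∈ F` -/
noncomputable def occurrences (P : Finset ℕ) (F : Finset ℕ) (d : ℕ) : ℕ :=
  (P.filter (fun p => ∀ j ∈ F, p + j * d ∈ P)).card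

theorem chebyshev_lower : ∀ᶠ x : ℕ in atTop,
    (1 / 2) * ((x : ℝ) / Real.log x) ≤ Nat.primeCounting x := by
  have h1 : ∀ᶠ y : ℝ in atTop, ‖Real.log y‖ ≤ 0.05 * ‖y‖ :=
    Real.isLittleO_log_id_atTop.bound (by norm_num)
  have h2 : ∀ᶠ x : ℕ in atTop, ‖Real.log ((x:ℝ) + 1)‖ ≤ 0.05 * ‖((x:ℝ) + 1)‖ := by
    have ht : Tendsto (fun x : ℕ => (x : ℝ) + 1) atTop atTop :=
      tendsto_natCast_atTop_atTop.atTop_add tendsto_const_nhds
    exact ht.eventually h1
  filter_upwards [h2, eventually_ge_atTop 3] with x hx hx3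
  have hx3R : (3 : ℝ) ≤ x := by exact_mod_cast hx3
  have hlogx : 0 < Real.log x := Real.log_pos (by linarith)
  rw [Real.norm_of_nonneg (Real.log_nonneg (by linarith)), Real.norm_of_nonneg (by linarith)] at hx
  refine le_trans ?_ (Chebyshev.pi_ge x)
  rw [← mul_div_assoc]
  gcongr
  have := Real.log_two_gt_d9
  nlinarith

open Classical in
/-- **Dilates of both shapes of prime triples, and patterns in dense sets of primes.** -/
theorem result :
    (∃ (B : ℕ) (c : ℝ), 0 < c ∧ ∀ᶠ n : ℕ in atTop, ∀ K : ℕ, Real.log n ^ B ≤ K →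
      K * Real.log n ^ B ≤ n →
      c * K ≤ (((Icc 1 K).filter (fun h : ℕ =>
        c * (n / Real.log n ^ 3) ≤ (triples (2 * h) (6 * h) n : ℝ) ∧
        c * (n / Real.log n ^ 3) ≤ (triples (4 * h) (6 * h) n : ℝ))).card : ℝ)) ∧
    ∀ (k : ℕ) (δ : ℝ), 0 < δ → ∃ (B : ℕ) (c : ℝ), 0 < c ∧ ∀ᶠ n : ℕ in atTop, ∀ P : Finset ℕ,
      (∀ p ∈ P, p.Prime ∧ p ≤ n) → δ * (n / Real.log n) ≤ (P.card : ℝ) →
      ∀ D : ℕ, Real.log n ^ B ≤ D → D * Real.log n ^ B ≤ n →
      c * D ≤ (((Icc 1 D).filter (fun d : ℕ => ∀ F ⊆ range k, 0 ∈ F →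
        c * (n / Real.log n ^ F.card) ≤ (occurrences P F d : ℝ))).card : ℝ) := by
  have hgen : ∀ (k : ℕ) (δ : ℝ), 0 < δ → ∃ (B : ℕ) (c : ℝ), 0 < c ∧ ∀ᶠ n : ℕ in atTop,
      ∀ P : Finset ℕ, (∀ p ∈ P, p.Prime ∧ p ≤ n) → δ * (n / Real.log n) ≤ (P.card : ℝ) →
      ∀ D : ℕ, Real.log n ^ B ≤ D → D * Real.log n ^ B ≤ n →
      c * D ≤ (((Icc 1 D).filter (fun d : ℕ => ∀ F ⊆ range k, 0 ∈ F →
        c * (n / Real.log n ^ F.card) ≤ (occurrences P F d : ℝ))).card : ℝ) := by
    intro k δ hδ
    obtain ⟨B, c, hc, h⟩ := Pool.Agent.L5helper4.DL.primes k δ hδ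
    refine ⟨B, c, hc, ?_⟩
    filter_upwards [h] with n hn
    intro P hP hPc D hD1 hD2
    refine (hn P hP hPc D hD1 hD2).trans (le_of_eq ?_)
    unfold occurrences
    congr!
  refine ⟨?_, hgen⟩
  obtain ⟨B, c, hc, h⟩ := hgen 4 (1 / 2) (by norm_num)
  refine ⟨B + 1, c, hc, ?_⟩
  have tN : Tendsto (fun N : ℕ => (N : ℝ)) atTop atTop := tendsto_natCast_atTop_atTop
  have hlog2 : ∀ᶠ n : ℕ in atTop, 2 ≤ Real.log n :=
    (Real.tendsto_log_atTop.comp tN).eventually_ge_atTop 2
  have hbig : ∀ᶠ n : ℕ in atTop, 1 < c * (n / Real.log n ^ 2) := by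
    have h1 := (Real.isLittleO_pow_log_id_atTop (n := 2)).bound (show (0 : ℝ) < c / 2 by positivity)
    filter_upwards [tN.eventually h1, hlog2, eventually_ge_atTop 1] with n h2 h3 h4
    have hn0 : (0 : ℝ) < n := by exact_mod_cast h4
    rw [Real.norm_of_nonneg (by positivity), id, Real.norm_of_nonneg hn0.le] at h2
    rw [← mul_div_assoc, lt_div_iff₀ (by positivity)]
    nlinarith
  filter_upwards [h, chebyshev_lower, hlog2, hbig, eventually_ge_atTop 2] with n hn hch hl hb hn2
  intro K hK1 hK2
  have hn0 : (0 : ℝ) < n := by exact_mod_cast (show 0 < n by omega)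
  set P := (Icc 1 n).filter Nat.Prime with hP
  have hPc : P.card = Nat.primeCounting n := by
    rw [hP, Nat.primeCounting, Nat.primeCounting', Nat.count_eq_card_filter_range]
    congr 1
    ext p
    rw [mem_filter, mem_filter, mem_Icc, mem_range]
    constructor
    · rintro ⟨⟨_, h2⟩, h3⟩
      exact ⟨by omega, h3⟩
    · rintro ⟨h2, h3⟩
      exact ⟨⟨h3.one_le, by omega⟩, h3⟩
  have hB1 : Real.log n ^ B ≤ Real.log n ^ (B + 1) := pow_le_pow_right₀ (by linarith) (by omega)
  have h1 := hn P (by
    intro p hp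
    rw [hP, mem_filter, mem_Icc] at hp
    exact ⟨hp.2, hp.1.2⟩) (by rw [hPc]; exact hch) (2 * K) (by
    push_cast
    have : (0 : ℝ) ≤ K := Nat.cast_nonneg K
    linarith) (by
    push_cast
    have h2 : (K : ℝ) * (Real.log n ^ B * 2) ≤ K * Real.log n ^ (B + 1) := by
      rw [pow_succ]
      apply mul_le_mul_of_nonneg_left _ (Nat.cast_nonneg K)
      exact mul_le_mul_of_nonneg_left hl (by positivity)
    linarith)
  set Q := (Icc 1 K).filter (fun h : ℕ =>
        c * (n / Real.log n ^ 3) ≤ (triples (2 * h) (6 * h) n : ℝ) ∧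
        c * (n / Real.log n ^ 3) ≤ (triples (4 * h) (6 * h) n : ℝ)) with hQ
  have hsub : (Icc 1 (2 * K)).filter (fun d : ℕ => ∀ F ⊆ range 4, 0 ∈ F →
        c * (n / Real.log n ^ F.card) ≤ (occurrences P F d : ℝ)) ⊆ Q.image (fun h => 2 * h) := by
    intro d hd
    rw [mem_filter, mem_Icc] at hd
    -- `d` is even
    have hev : Even d := by
      by_contra hodd
      rw [Nat.not_even_iff_odd] at hodd
      have h2 := hd.2 {0, 1} (by decide) (by decide)
      have h3 : occurrences P {0, 1} d ≤ 1 := by
        unfold occurrences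
        apply card_le_one.2
        intro a ha b hb'
        rw [mem_filter] at ha hb'
        have key : ∀ a ∈ P, (∀ j ∈ ({0, 1} : Finset ℕ), a + j * d ∈ P) → a = 2 := by
          intro a ha h4
          have h5 := h4 1 (by decide)
          rw [one_mul] at h5
          rw [hP, mem_filter] at ha h5
          rcases ha.2.eq_two_or_odd' with h6 | h6
          · exact h6
          · exfalso
            rcases h5.2.eq_two_or_odd' with h7 | h7
            · have := ha.2.two_le
              omega
            · exact (Nat.not_even_iff_odd.2 h7) (h6.add_odd hodd)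
        rw [key a ha.1 ha.2, key b hb'.1 hb'.2]
      have h4 : (occurrences P {0, 1} d : ℝ) ≤ 1 := by exact_mod_cast h3
      rw [show ({0, 1} : Finset ℕ).card = 2 by decide] at h2
      linarith
    obtain ⟨h', hh'⟩ := hev
    have hdh : d = 2 * h' := by omega
    rw [mem_image]
    refine ⟨h', ?_, hdh.symm⟩
    rw [hQ, mem_filter, mem_Icc]
    have hocc : ∀ F : Finset ℕ, ∀ a b : ℕ, (∀ j, j = 0 ∨ j = a ∨ j = b ↔ j ∈ F) →
        (occurrences P F d : ℝ) ≤ (triples (a * d) (b * d) n : ℝ) := by
      intro F a b hF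
      have : occurrences P F d ≤ triples (a * d) (b * d) n := by
        unfold occurrences triples
        apply card_le_card
        intro p hp
        rw [mem_filter] at hp
        have h5 := hp.2 a ((hF a).1 (Or.inr (Or.inl rfl)))
        have h6 := hp.2 b ((hF b).1 (Or.inr (Or.inr rfl)))
        rw [hP, mem_filter] at h5 h6
        have h7 := hp.1
        rw [hP, mem_filter] at h7
        rw [mem_filter]
        exact ⟨h7.1, h7.2, h5.2, h6.2⟩
      exact_mod_cast this
    refine ⟨⟨by omega, by omega⟩, ?_, ?_⟩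
    · have h2 := hd.2 {0, 1, 3} (by decide) (by decide)
      rw [show ({0, 1, 3} : Finset ℕ).card = 3 by decide] at h2
      have h3 := hocc {0, 1, 3} 1 3 (by intro j; simp)
      rw [show 1 * d = 2 * h' by omega, show 3 * d = 6 * h' by omega] at h3
      exact h2.trans h3
    · have h2 := hd.2 {0, 2, 3} (by decide) (by decide)
      rw [show ({0, 2, 3} : Finset ℕ).card = 3 by decide] at h2
      have h3 := hocc {0, 2, 3} 2 3 (by intro j; simp)
      rw [show 2 * d = 4 * h' by omega, show 3 * d = 6 * h' by omega] at h3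
      exact h2.trans h3
  have h2 : (((Icc 1 (2 * K)).filter (fun d : ℕ => ∀ F ⊆ range 4, 0 ∈ F →
        c * (n / Real.log n ^ F.card) ≤ (occurrences P F d : ℝ))).card : ℝ) ≤ Q.card := by
    have := (card_le_card hsub).trans card_image_le
    exact_mod_cast this
  refine le_trans ?_ (h1.trans h2)
  push_cast
  have : (0 : ℝ) ≤ K := Nat.cast_nonneg K
  nlinarith

end Pool.Agent.Results.MP_c0d11e_nt.DilatesOfBothShapes
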