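import Pool.Agent.Y879.PR.Inst
import Pool.Agent.L5helper16.RG.Dens

set_option autoImplicit false

/-!
# Primes with two almost prime companions: the constant of Hardy and Littlewood and the law of the next triples

Let `h` be `(0, 2, 6)` or `(0, 4, 6)`. The `m` are counted in all windows of length `δ N` for which one of the numbers
`m + h i` (for a fixed `i`) is a PRIME and the others have no prime factor `≤ N ^ (1 / r)` (so at most `r` prime
factors): for large `r` and `N` their number is, up to the factor `1 + O (ε)`, the one predicted by Hardy and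
Littlewood, with the constant `D` of the problem. The number of the almost prime triples which follow such a `PRIME`,
in the same residue class modulo `30` and up to a distance proportional to the mean distance, has the Poisson law, up to
`ε`.
-/

namespace Pool.Agent.Results.MP_c0d11e_nt.PrimesWithCompanions

open Finset Filter Topology

/-- The partial products of the constant `D` of the problem. -/
noncomputable def partialD (z : ℕ) : ℝ :=
  9 / 2 * ∏ p ∈ (Icc 4 z).filter Nat.Prime, (p : ℝ) ^ 2 * (p - 3) / (p - 1) ^ 3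

/-- none of the three numbers `m + h i` has a prime factor `q ≤ N ^ (1 / r)` -/
def Good (h : Fin 3 → ℕ) (N r m : ℕ) : Prop :=
  ∀ q : ℕ, q.Prime → (q : ℝ) ≤ (N : ℝ) ^ (1 / (r : ℝ)) → ∀ i, ¬ q ∣ m + h i

open Classical in
/-- the good `m` in `(A, A + L]` for which `m + h i` is PRIME -/
noncomputable def P (h : Fin 3 → ℕ) (N r : ℕ) (i : Fin 3) (A L : ℕ) : Finset ℕ :=
  (Ioc A (A + L)).filter (fun m => (m + h i).Prime ∧ Good h N r m)

open Classical in
/-- the number of the good `l` in `(m, m + 30 T]` with `l ≡ m` modulo `30` -/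
noncomputable def Next (h : Fin 3 → ℕ) (N r T m : ℕ) : ℕ :=
  ((Ioc m (m + 30 * T)).filter (fun l => l % 30 = m % 30 ∧ Good h N r l)).card

/-- the product of `1 - 3 / q` over the primes `7 ≤ q ≤ N ^ (1 / r)` -/
noncomputable def V (N r : ℕ) : ℝ :=
  ∏ q ∈ (Icc 7 ⌊(N : ℝ) ^ (1 / (r : ℝ))⌋₊).filter Nat.Prime, (1 - 3 / (q : ℝ))

lemma partialD_eq (z : ℕ) (hz : 6 ≤ z) : partialD z = 225 / 64 * Pool.Agent.L5helper16.RG.pr z := by
  unfold partialD
  rw [Pool.Agent.L5helper16.RG.split4 (fun p => (p : ℝ) ^ 2 * (p - 3) / (p - 1) ^ 3) z hz]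
  unfold Pool.Agent.L5helper16.RG.pr Pool.Agent.L5helper16.RG.fac
  norm_num
  ring

lemma V_eq (N r : ℕ) (h : 6 ≤ ⌊(N : ℝ) ^ (1 / (r : ℝ))⌋₊) :
    V N r = Pool.Agent.L5helper16.RG.V3 ⌊(N : ℝ) ^ (1 / (r : ℝ))⌋₊ := by
  unfold V Pool.Agent.L5helper16.RG.V3
  rw [Pool.Agent.L5helper16.RG.split (fun p => (1 - (Pool.Agent.L5helper16.RG.nu3 p : ℝ) / p)) _ h]
  have e2 : Pool.Agent.L5helper16.RG.nu3 2 = 0 := by decide
  have e3 : Pool.Agent.L5helper16.RG.nu3 3 = 0 := by decide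
  have e5 : Pool.Agent.L5helper16.RG.nu3 5 = 0 := by decide
  rw [e2, e3, e5]
  simp only [Nat.cast_zero, zero_div, sub_zero, mul_one, one_mul]
  apply prod_congr rfl
  intro p hp
  obtain ⟨hp1, hp2⟩ := mem_filter.1 hp
  rw [Pool.Agent.L5helper16.RG.nu3_big p (mem_Icc.1 hp1).1 hp2]
  norm_num

lemma PV_eq (N r : ℕ) : Pool.Agent.Y879.PR.PV 30 3 N r =
    Pool.Agent.L5helper16.RG.V3 ⌊(N : ℝ) ^ (1 / (r : ℝ))⌋₊ := rfl

lemma PW_eq (N r : ℕ) : Pool.Agent.Y879.PR.PW 30 3 N r =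
    Pool.Agent.L5helper16.RG.W3 ⌊(N : ℝ) ^ (1 / (r : ℝ))⌋₊ := rfl

/-- arithmetic of the relative errors -/
lemma errors {p w l k ε : ℝ} (L : ℝ) (hL : 0 < L) (hl : 0 ≤ l) (hk : 0 ≤ k) (hε : 0 < ε) (hε1 : ε ≤ 1)
    (h1 : |p * L - l / 15 * w| ≤ ε / 4 * (l / 15 * w)) (h2 : |w * L ^ 2 - 15 * k| ≤ ε / 4 * (15 * k)) :
    |p - k * l / L ^ 3| ≤ ε * (k * l / L ^ 3) := by
  obtain ⟨a1, a2⟩ := abs_le.1 h1
  obtain ⟨b1, b2⟩ := abs_le.1 h2
  have hL3 : 0 < L ^ 3 := by positivity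
  have e : p - k * l / L ^ 3 = (p * L ^ 3 - k * l) / L ^ 3 := by
    field_simp
  have hkl : 0 ≤ k * l := mul_nonneg hk hl
  rw [e, abs_div, abs_of_pos hL3, ← mul_div_assoc, div_le_div_iff_of_pos_right hL3, abs_le]
  have c1 : (1 - ε / 4) * (l / 15 * (w * L ^ 2)) ≤ p * L ^ 3 := by
    have := mul_le_mul_of_nonneg_right (show (1 - ε / 4) * (l / 15 * w) ≤ p * L by linarith)
      (show 0 ≤ L ^ 2 by positivity)
    nlinarith
  have c2 : p * L ^ 3 ≤ (1 + ε / 4) * (l / 15 * (w * L ^ 2)) := by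
    have := mul_le_mul_of_nonneg_right (show p * L ≤ (1 + ε / 4) * (l / 15 * w) by linarith)
      (show 0 ≤ L ^ 2 by positivity)
    nlinarith
  have d1 : (1 - ε / 4) * (k * l) ≤ l / 15 * (w * L ^ 2) := by
    have := mul_le_mul_of_nonneg_left (show (1 - ε / 4) * (15 * k) ≤ w * L ^ 2 by linarith)
      (show 0 ≤ l / 15 by positivity)
    nlinarith
  have d2 : l / 15 * (w * L ^ 2) ≤ (1 + ε / 4) * (k * l) := by
    have := mul_le_mul_of_nonneg_left (show w * L ^ 2 ≤ (1 + ε / 4) * (15 * k) by linarith)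
      (show 0 ≤ l / 15 by positivity)
    nlinarith
  have e1 := mul_le_mul_of_nonneg_left d1 (show 0 ≤ 1 - ε / 4 by linarith)
  have e2 := mul_le_mul_of_nonneg_left d2 (show 0 ≤ 1 + ε / 4 by linarith)
  constructor
  · nlinarith
  · nlinarith

open Classical in
/-- **Primes with two almost prime companions.** -/
theorem result : ∃ D : ℝ, 0 < D ∧ Tendsto partialD atTop (𝓝 D) ∧
    ∀ h : Fin 3 → ℕ, (h = ![0, 2, 6] ∨ h = ![0, 4, 6]) →
    ∀ δ x₀ ε : ℝ, 0 < δ → δ ≤ 1 → 0 < ε → ε ≤ 1 → ∃ r₀ : ℕ, 2 ≤ r₀ ∧ ∀ r : ℕ, r₀ ≤ r →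
      Tendsto (fun N : ℕ => V N r * Real.log N ^ 3) atTop
        (𝓝 (15 * D * (r * Real.exp (-Real.eulerMascheroniConstant)) ^ 3)) ∧
      ∀ᶠ N : ℕ in atTop,
        (∀ m : ℕ, m ≤ N → Good h N r m → ∀ i, (m + h i).primeFactorsList.length ≤ r) ∧
        (∀ m : ℕ, (N : ℝ) ^ (1 / (r : ℝ)) < m → (∀ i, (m + h i).Prime) → Good h N r m) ∧
        ∀ (i : Fin 3) (A L : ℕ), δ * N ≤ L → A + L ≤ N →
          |((P h N r i A L).card : ℝ) -
              D * (r * Real.exp (-Real.eulerMascheroniConstant)) ^ 2 * L / Real.log N ^ 3| ≤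
            ε * (D * (r * Real.exp (-Real.eulerMascheroniConstant)) ^ 2 * L / Real.log N ^ 3) ∧
          ∀ T : ℕ, T * V N r ≤ x₀ → ∀ B : Finset ℕ,
            |(((P h N r i A L).filter (fun m => Next h N r T m ∈ B)).card : ℝ) -
              (P h N r i A L).card * ∑ j ∈ B, Real.exp (-(T * V N r)) * (T * V N r) ^ j / j.factorial| ≤
                ε * (P h N r i A L).card := by
  obtain ⟨d, hd0, hd⟩ := Pool.Agent.L5helper16.RG.pr_lim
  refine ⟨225 / 64 * d, by positivity, ?_, ?_⟩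
  · refine (hd.const_mul (225 / 64)).congr' ?_
    filter_upwards [eventually_ge_atTop 6] with z hz
    exact (partialD_eq z hz).symm
  intro h hh δ x₀ ε hδ hδ1 hε hε1
  obtain ⟨C, hC2, hCne, hP⟩ : ∃ C : Finset ℕ, C.card = 2 ∧ C.Nonempty ∧ Pool.Agent.Y879.PR.Pat2 30 h C := by
    rcases hh with rfl | rfl
    · exact ⟨{11, 17}, by decide, ⟨11, by simp⟩, Pool.Agent.Y879.PR.pat_ta⟩
    · exact ⟨{7, 13}, by decide, ⟨7, by simp⟩, Pool.Agent.Y879.PR.pat_tb⟩
  obtain ⟨r₀, hr₀, H⟩ := Pool.Agent.Y879.PR.pat_main hP hCne 1 δ one_pos hδ hδ1 x₀ (ε / 4) (by positivity)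
    (by linarith)
  refine ⟨r₀, hr₀, fun r hr => ?_⟩
  have hr1 : 1 ≤ r := by omega
  have hrr : (0 : ℝ) < r := by exact_mod_cast hr1
  obtain ⟨hW, hV⟩ := Pool.Agent.L5helper16.RG.dens r hr1 hd
  have hfl : Tendsto (fun N : ℕ => ⌊(N : ℝ) ^ (1 / (r : ℝ))⌋₊) atTop atTop :=
    tendsto_nat_floor_atTop.comp ((tendsto_rpow_atTop (by positivity)).comp tendsto_natCast_atTop_atTop)
  obtain ⟨N₀, H⟩ := H r hr
  obtain ⟨k, hk⟩ : ∃ k : ℝ, k = 225 / 64 * d * (r * Real.exp (-Real.eulerMascheroniConstant)) ^ 2 := ⟨_, rfl⟩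
  have hk0 : 0 < k := by rw [hk]; positivity
  refine ⟨?_, ?_⟩
  · refine (hV.congr' ?_).trans (le_of_eq ?_)
    · filter_upwards [hfl.eventually_ge_atTop 6] with N hN
      rw [V_eq N r hN]
    · congr 1
      ring
  have hWk : ∀ᶠ N : ℕ in atTop, |Pool.Agent.L5helper16.RG.W3 ⌊(N : ℝ) ^ (1 / (r : ℝ))⌋₊ * Real.log N ^ 2 - 15 * k| ≤
      ε / 4 * (15 * k) := by
    have h1 := (hW.sub_const (15 * k)).abs
    have e : |(15 / 4 : ℝ) ^ 3 * d * (r * Real.exp (-Real.eulerMascheroniConstant)) ^ 2 - 15 * k| = 0 := by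
      rw [abs_eq_zero, hk]
      ring
    rw [e] at h1
    exact (h1.eventually (eventually_le_nhds (by positivity)))
  filter_upwards [hWk, eventually_ge_atTop N₀, hfl.eventually_ge_atTop 6, eventually_ge_atTop 3]
    with N hN1 hN2 hN3 hN4
  obtain ⟨H1, H2, -, -, -, H6⟩ := H N hN2
  have hN0 : (3 : ℝ) ≤ N := by exact_mod_cast hN4
  have hlog : 0 < Real.log N := Real.log_pos (by linarith)
  refine ⟨H1, H2, fun i A L hδL hAL => ?_⟩
  obtain ⟨G1, G2⟩ := H6 i N (by rw [Real.rpow_one]) A L hδL hAL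
  rw [PW_eq, hC2] at G1
  have hPeq : P h N r i A L = Pool.Agent.Y879.PR.PP h N r i A L := rfl
  have hVeq : V N r = Pool.Agent.Y879.PR.PV 30 3 N r := by rw [V_eq N r hN3, PV_eq]
  refine ⟨?_, ?_⟩
  · rw [← hk, hPeq]
    apply errors (Real.log N) hlog (Nat.cast_nonneg L) hk0.le hε hε1 _ hN1
    have e : (((2 : ℕ) : ℝ)) * ((L : ℝ) / ((30 : ℕ) : ℝ) *
        Pool.Agent.L5helper16.RG.W3 ⌊(N : ℝ) ^ (1 / (r : ℝ))⌋₊) =
        L / 15 * Pool.Agent.L5helper16.RG.W3 ⌊(N : ℝ) ^ (1 / (r : ℝ))⌋₊ := by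
      push_cast
      ring
    rw [e] at G1
    exact G1
  · intro T hT B
    rw [hVeq] at hT ⊢
    refine (G2 T hT B).trans ?_
    rw [hPeq]
    apply mul_le_mul_of_nonneg_right _ (Nat.cast_nonneg _)
    linarith

end Pool.Agent.Results.MP_c0d11e_nt.PrimesWithCompanions
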