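import Pool.Agent.L5helper4.SR.BaseU

set_option autoImplicit false

/-!
# Strings of primes which start almost prime triples of both shapes and their dilates

The two patterns of the problem and their dilates are `p, p + 2 h, p + 6 h` and `p, p + 4 h, p + 6 h`. Let
`k, m ≥ 1`. There are `K`, `B` and `δ > 0` and for every `A` a number `r` such that for every set `S`
of at least `K` shifts and all large `N` the following holds for ALL dilates `h_1, …, h_k ≤ N ^ A` and all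
choices of the shapes `σ_1, …, σ_k ∈ {2, 4}`, if no prime divides `x ∏ (x + σ_i h_i) (x + 6 h_i)` for all
`x` (for `k = 1` this is always satisfied): for at least `N / (log N) ^ B` integers `n` between `N` and
`2 N` all `n + s`, `s ∈ H`, are prime, where `H ⊆ S` has at least `m` elements and does not depend on
`n`, for all these primes `p` and all `i` the numbers `p + σ_i h_i` and `p + 6 h_i` have at most `r` prime
factors, all at least `N ^ δ`, and `[n, n + max S]` contains no other primes, except possibly at places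
`s + σ_i h_i`, `s + 6 h_i`, `s ∈ S`; for `h_i > max S` the primes are consecutive.

The theorem of Maynard and Tao for primes with almost prime companions, uniformly in the polynomial, is in the
starting library (`Pool.Agent.R498.MP.stringsU`, never handed in).
-/

namespace Pool.Agent.Results.MP_c0d11e_nt.TriplesAtPrimeStrings

open Filter Polynomial Finset
open Pool.Agent.R498.MP (APZ)
open Pool.Agent.L5helper4.SR

/-- `v` has at most `r` prime factors, counted with multiplicity, all of them at least `w`. -/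
def AlmostPrime (r : ℕ) (w : ℝ) (v : ℕ) : Prop :=
  v.primeFactorsList.length ≤ r ∧ ∀ p : ℕ, p.Prime → p ∣ v → w ≤ p

/-- no prime divides `x * ∏ (x + σ i * h i) (x + 6 * h i)` for all integers `x` -/
def NoFixedDivisor {k : ℕ} (σ h : Fin k → ℕ) : Prop :=
  ∀ p : ℕ, p.Prime → ∃ x : ℤ, ¬ (p : ℤ) ∣ x * ∏ i, ((x + σ i * h i) * (x + 6 * h i))

/-- among three consecutive integers one avoids two classes modulo a prime `p ≥ 5` -/
theorem avoid (p : ℕ) (hp5 : 5 ≤ p) (u v : ℤ) :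
    ∃ x : ℤ, (x = 1 ∨ x = 2 ∨ x = 3) ∧ ¬ (p : ℤ) ∣ x + u ∧ ¬ (p : ℤ) ∣ x + v := by
  have key : ∀ w a b : ℤ, (p : ℤ) ∣ a + w → (p : ℤ) ∣ b + w → (a - b = 1 ∨ a - b = 2) → False := by
    intro w a b ha hb hab
    have h1 := dvd_sub ha hb
    rw [add_sub_add_right_eq_sub] at h1
    have h2 : (p : ℤ) ≤ a - b := Int.le_of_dvd (by omega) h1
    omega
  by_contra hcon
  push Not at hcon
  have h1 := hcon 1 (by simp)
  have h2 := hcon 2 (by simp)
  have h3 := hcon 3 (by simp)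
  by_cases a1 : (p : ℤ) ∣ 1 + u
  · by_cases a2 : (p : ℤ) ∣ 2 + u
    · exact key u 2 1 a2 a1 (by norm_num)
    · by_cases a3 : (p : ℤ) ∣ 3 + u
      · exact key u 3 1 a3 a1 (by norm_num)
      · exact key v 3 2 (h3 a3) (h2 a2) (by norm_num)
  · by_cases a2 : (p : ℤ) ∣ 2 + u
    · by_cases a3 : (p : ℤ) ∣ 3 + u
      · exact key u 3 2 a3 a2 (by norm_num)
      · exact key v 3 1 (h3 a3) (h1 a1) (by norm_num)
    · exact key v 2 1 (h2 a2) (h1 a1) (by norm_num)

/-- one triple has no fixed divisor -/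
theorem noFixedDivisor_one (σ h : ℕ) (hσ : σ = 2 ∨ σ = 4) :
    NoFixedDivisor (fun _ : Fin 1 => σ) (fun _ => h) := by
  intro p hp
  have hpi : Prime (p : ℤ) := Nat.prime_iff_prime_int.1 hp
  have hred : ∀ x : ℤ, ¬ (p : ℤ) ∣ x → ¬ (p : ℤ) ∣ x + σ * h → ¬ (p : ℤ) ∣ x + 6 * h →
      ¬ (p : ℤ) ∣ x * ∏ _i : Fin 1, ((x + σ * h) * (x + 6 * h)) := by
    intro x h1 h2 h3 h4
    rw [Fin.prod_univ_one] at h4
    rcases hpi.dvd_or_dvd h4 with h5 | h5
    · exact h1 h5
    · rcases hpi.dvd_or_dvd h5 with h6 | h6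
      · exact h2 h6
      · exact h3 h6
  rcases (by have := hp.two_le; omega : p = 2 ∨ p = 3 ∨ p = 4 ∨ 5 ≤ p) with rfl | rfl | rfl | h5
  · refine ⟨1, hred 1 (by norm_num) ?_ ?_⟩
    · rcases hσ with rfl | rfl <;> push_cast <;> omega
    · push_cast
      omega
  · have h6 : ∀ x : ℤ, ¬ ((3 : ℕ) : ℤ) ∣ x → ¬ ((3 : ℕ) : ℤ) ∣ x + 6 * h := by
      intro x hx hx'
      apply hx
      push_cast at hx' ⊢
      omega
    by_cases h1 : ((3 : ℕ) : ℤ) ∣ 1 + σ * h
    · refine ⟨2, hred 2 (by norm_num) ?_ (h6 2 (by norm_num))⟩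
      intro h2
      have h3 := dvd_sub h2 h1
      rw [add_sub_add_right_eq_sub] at h3
      norm_num at h3
    · exact ⟨1, hred 1 (by norm_num) h1 (h6 1 (by norm_num))⟩
  · exact absurd hp (by norm_num)
  · obtain ⟨x, hx, h1, h2⟩ := avoid p h5 (σ * h) (6 * h)
    refine ⟨x, hred x ?_ h1 h2⟩
    intro h3
    have h4 : (p : ℤ) ≤ x := Int.le_of_dvd (by omega) h3
    omega

/-- **Strings of primes which start almost prime triples of both shapes and their dilates.** -/
theorem result (k m : ℕ) :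
    (∀ σ h : ℕ, (σ = 2 ∨ σ = 4) → NoFixedDivisor (fun _ : Fin 1 => σ) (fun _ => h)) ∧
    ∃ (K B : ℕ) (δ : ℝ), 0 < δ ∧ ∀ A : ℕ, ∃ r : ℕ, ∀ S : Finset ℕ, K ≤ S.card →
      ∀ᶠ N : ℕ in atTop, ∀ σ h : Fin k → ℕ, (∀ i, σ i = 2 ∨ σ i = 4) →
      (∀ i, 1 ≤ h i ∧ h i ≤ N ^ A) → NoFixedDivisor σ h →
      ∃ H ⊆ S, m ≤ H.card ∧ ∃ T : Finset ℕ, (N : ℝ) ≤ Real.log N ^ B * T.card ∧
        ∀ n ∈ T, N < n ∧ n + S.sup id ≤ 2 * N ∧
          (∀ s ∈ H, (n + s).Prime ∧ ∀ i, AlmostPrime r ((N : ℝ) ^ δ) (n + s + σ i * h i) ∧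
            AlmostPrime r ((N : ℝ) ^ δ) (n + s + 6 * h i)) ∧
          ∀ y ≤ S.sup id, y ∉ H → (∀ s ∈ S, ∀ i, y ≠ s + σ i * h i ∧ y ≠ s + 6 * h i) →
            ¬ (n + y).Prime := by
  refine ⟨noFixedDivisor_one, ?_⟩
  obtain ⟨K, B, δ, hδ, h1⟩ := runs_fam k 2 1 squarefree_one m
  refine ⟨K, B, δ, hδ, fun A => ?_⟩
  obtain ⟨r, h2⟩ := h1 (2 * A + 8)
  refine ⟨r, fun S hS => ?_⟩
  filter_upwards [h2 S hS, eventually_ge_atTop 2] with N h3 hN2
  intro σ h hσ hh hadm
  have hev : ∀ i, ∀ x : ℤ, ((X + C ((σ i : ℤ) * h i)) * (X + C (6 * (h i : ℤ))) : ℤ[X]).eval x =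
      (x + σ i * h i) * (x + 6 * h i) := fun i x => by
    simp
  have hN : (2 : ℤ) ≤ N := by exact_mod_cast hN2
  obtain ⟨H, hHS, hHm, T, hT, h4⟩ := h3 (fun i => (X + C ((σ i : ℤ) * h i)) * (X + C (6 * (h i : ℤ)))) (by
      intro i
      compute_degree) (by
      intro p hp
      obtain ⟨x, hx⟩ := hadm p hp
      refine ⟨x, ?_⟩
      simpa [hev] using hx) (by
      intro i x hx
      rw [hev, abs_mul]
      have hA2 : (h i : ℤ) ≤ (N : ℤ) ^ A := by exact_mod_cast (hh i).2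
      have hA0 : (0 : ℤ) ≤ h i := by positivity
      have h8 : (1 : ℤ) ≤ (N : ℤ) ^ A := one_le_pow₀ (by linarith)
      have h9 : ∀ c : ℤ, 0 ≤ c → c ≤ 6 → |x + c * h i| ≤ (N : ℤ) ^ (A + 4) := by
        intro c hc0 hc6
        have h10 : |x + c * h i| ≤ |x| + |c * h i| := abs_add_le _ _
        have h11 : |c * (h i : ℤ)| = c * h i := abs_of_nonneg (by positivity)
        have h12 : c * (h i : ℤ) ≤ 6 * (N : ℤ) ^ A := by nlinarith
        have h13 : (2 : ℤ) * N + 6 ≤ (N : ℤ) ^ 4 := by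
          have h14 : (4 : ℤ) ≤ (N : ℤ) ^ 2 := by nlinarith
          have h15 : (N : ℤ) ^ 4 = (N : ℤ) ^ 2 * (N : ℤ) ^ 2 := by ring
          nlinarith
        rw [pow_add]
        calc |x + c * h i| ≤ 2 * N + 6 * (N : ℤ) ^ A := by linarith
          _ ≤ (N : ℤ) ^ A * (2 * N + 6) := by nlinarith
          _ ≤ (N : ℤ) ^ A * (N : ℤ) ^ 4 := mul_le_mul_of_nonneg_left h13 (by positivity)
      have h10 := h9 (σ i) (by positivity) (by rcases hσ i with h | h <;> rw [h] <;> norm_num)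
      have h11 := h9 6 (by norm_num) le_rfl
      calc |x + σ i * h i| * |x + 6 * h i| ≤ (N : ℤ) ^ (A + 4) * (N : ℤ) ^ (A + 4) :=
            mul_le_mul h10 h11 (abs_nonneg _) (by positivity)
        _ = (N : ℤ) ^ (2 * A + 8) := by
            rw [← pow_add]
            congr 1
            ring) 0 (by
      intro p hp hp1
      exact absurd (Nat.dvd_one.1 hp1) hp.one_lt.ne')
  refine ⟨H, hHS, hHm, T, hT, fun n hn => ?_⟩
  obtain ⟨h5, h6, h7, h8⟩ := h4 n hn
  refine ⟨h5, h6, fun s hs => ⟨(h7 s hs).1, fun i => ?_⟩, fun y hy hyH hz => ?_⟩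
  · have h9 := (h7 s hs).2.2 i
    rw [hev] at h9
    constructor
    · have h10 := apz_dvd (dvd_mul_right _ _) h9
      have h11 : ((n + s : ℕ) : ℤ) + (σ i : ℤ) * h i = ((n + s + σ i * h i : ℕ) : ℤ) := by push_cast; ring
      rw [h11] at h10
      exact apz_nat h10
    · have h10 := apz_dvd (dvd_mul_left _ _) h9
      have h11 : ((n + s : ℕ) : ℤ) + 6 * (h i : ℤ) = ((n + s + 6 * h i : ℕ) : ℤ) := by push_cast; ring
      rw [h11] at h10
      exact apz_nat h10
  · refine h8 y hy hyH fun s hs _ i => ?_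
    rw [hev]
    obtain ⟨h9, h10⟩ := hz s hs i
    apply mul_ne_zero
    · intro h11
      apply h9
      have : ((y : ℕ) : ℤ) = ((s + σ i * h i : ℕ) : ℤ) := by push_cast; linarith
      exact_mod_cast this
    · intro h11
      apply h10
      have : ((y : ℕ) : ℤ) = ((s + 6 * h i : ℕ) : ℤ) := by push_cast; linarith
      exact_mod_cast this

end Pool.Agent.Results.MP_c0d11e_nt.TriplesAtPrimeStrings
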